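import Pool.Agent.helper63.DP.Chain
import Pool.Agent.helper63.DP.Posets
import Mathlib.Data.Nat.Fib.Basic
import Mathlib.Tactic.IntervalCases

/-!
# The Interval Property fails for the rank functions of `1`-differential posets

There are `1`-differential posets whose rank functions are
`p(0), …, p(16), 297, 528, 825, 1353, …` and `p(0), …, p(16), 299, 528, 825, 1353, …`
(`p(n)` the number of partitions of `n`; in the first sequence every entry from `528` on is the
sum of the two previous ones, and the second differs from it at the index `17` only), but none with rank function `p(0), …, p(16), 298, 528, 825, 1353, …`; in fact no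
`1`-differential poset has `p(n)` elements of rank `n` for all `n ≤ 16` and `298` elements of
rank `17`.
-/

namespace Pool.Agent.Results.MP_936fee_co.IntervalPropertyFails

/-- `P` is an `r`-differential poset: a graded (`GradeMinOrder ℕ P`: the rank is strictly
monotone, increases by one along coverings, and minimal elements have rank `0`), locally finite
poset with exactly one element of rank `0`, such that

* for any two distinct elements the number of elements covered by both equals the number of
  elements covering both;
* if `x` covers exactly `m` elements, then exactly `m + r` elements cover `x`. -/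
structure IsDifferentialPoset (r : ℕ) (P : Type) [PartialOrder P] [GradeMinOrder ℕ P]
    [LocallyFiniteOrder P] : Prop where
  unique_rank_zero : ∃! x : P, grade ℕ x = 0
  common_covers : ∀ x y : P, x ≠ y →
    {z : P | z ⋖ x ∧ z ⋖ y}.encard = {z : P | x ⋖ z ∧ y ⋖ z}.encard
  covers : ∀ (x : P) (m : ℕ), {z : P | z ⋖ x}.encard = (m : ℕ∞) →
    {z : P | x ⋖ z}.encard = ((m + r : ℕ) : ℕ∞)

/-- The set of rank functions of `r`-differential posets: all sequences `h` such that some
`r`-differential poset has exactly `h n` elements of rank `n`, for every `n`. -/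
def rankFunctions (r : ℕ) : Set (ℕ → ℕ) :=
  {h | ∃ (P : Type) (_ : PartialOrder P) (_ : GradeMinOrder ℕ P) (_ : LocallyFiniteOrder P),
    IsDifferentialPoset r P ∧ ∀ n, {x : P | grade ℕ x = n}.encard = (h n : ℕ∞)}

/-- The Interval Property of a set `S` of integer sequences: if `h` and `h'` lie in `S`, agree in
all entries but the `i`-th, and `h' i = h i + α` with `α > 0`, then all sequences obtained from
`h` by replacing the `i`-th entry by `h i + β`, `0 ≤ β ≤ α`, lie in `S`. -/
def IntervalProperty (S : Set (ℕ → ℕ)) : Prop :=
  ∀ h ∈ S, ∀ h' ∈ S, ∀ i α : ℕ, 0 < α → (∀ j, j ≠ i → h' j = h j) → h' i = h i + α →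
    ∀ β ≤ α, Function.update h i (h i + β) ∈ S

/-- The numbers of partitions of `0, …, 17`, and from then on every entry is the sum of the two
previous ones (see `base_add_two`): `528 = 231 + 297`, `825 = 297 + 528`, and so on. -/
def base (n : ℕ) : ℕ :=
  if n < 18 then
    [1, 1, 2, 3, 5, 7, 11, 15, 22, 30, 42, 56, 77, 101, 135, 176, 231, 297].getD n 0
  else 231 * Nat.fib (n - 17) + 297 * Nat.fib (n - 16)

/-- The sequence `base` with the entry at `17` replaced by `c`. -/
def seq (c : ℕ) : ℕ → ℕ := Function.update base 17 c

open Pool.Agent.helper63.DP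

theorem of_diff1 {P : Type} [PartialOrder P] [GradeMinOrder ℕ P] [LocallyFiniteOrder P]
    (h : Diff1 P) : IsDifferentialPoset 1 P :=
  ⟨h.zero, h.common, fun x m hm => by
    have := h.degree x m hm
    rw [this]; push_cast; rfl⟩

theorem to_diff1 {P : Type} [PartialOrder P] [GradeMinOrder ℕ P] [LocallyFiniteOrder P]
    (h : IsDifferentialPoset 1 P) : Diff1 P :=
  ⟨h.unique_rank_zero, h.common_covers, fun x m hm => by
    have := h.covers x m hm
    rw [this]; push_cast; rfl⟩

/-- Cardinalities of levels in the two forms. -/
theorem card_of_encard {P : Type} [PartialOrder P] [GradeMinOrder ℕ P] {n m : ℕ}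
    (h : {x : P | grade ℕ x = n}.encard = (m : ℕ∞)) :
    Nat.card {x : P // grade ℕ x = n} = m := by
  have h1 : Nat.card {x : P // grade ℕ x = n} = Set.ncard {x : P | grade ℕ x = n} := rfl
  rw [h1, Set.ncard_def, h]
  rfl

theorem encard_of_card {P : Type} [PartialOrder P] [GradeMinOrder ℕ P] {n m : ℕ} (hm : m ≠ 0)
    (h : Nat.card {x : P // grade ℕ x = n} = m) :
    {x : P | grade ℕ x = n}.encard = (m : ℕ∞) := by
  have h1 : Nat.card {x : P // grade ℕ x = n} = Set.ncard {x : P | grade ℕ x = n} := rfl
  have h2 : Finite {x : P // grade ℕ x = n} := Nat.finite_of_card_ne_zero (by rw [h]; exact hm)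
  have h3 : {x : P | grade ℕ x = n}.Finite := h2
  rw [← h3.cast_ncard_eq, ← h1, h]

theorem base18 : base 18 = 528 := by norm_num [base]

theorem base19 : base 19 = 825 := by norm_num [base, Nat.fib_add_two]

/-- From index `18` on, every entry of `base` is the sum of the two previous ones. -/
theorem base_add_two (m : ℕ) : base (m + 18) = base (m + 17) + base (m + 16) := by
  rcases m with _ | _ | m
  · rw [base18]; rfl
  · rw [base19, base18]; rfl
  · have e1 : base (m + 1 + 1 + 18) = 231 * Nat.fib (m + 3) + 297 * Nat.fib (m + 4) := by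
      unfold base
      rw [if_neg (by omega)]
      rfl
    have e2 : base (m + 1 + 1 + 17) = 231 * Nat.fib (m + 2) + 297 * Nat.fib (m + 3) := by
      unfold base
      rw [if_neg (by omega)]
      rfl
    have e3 : base (m + 1 + 1 + 16) = 231 * Nat.fib (m + 1) + 297 * Nat.fib (m + 2) := by
      unfold base
      rw [if_neg (by omega)]
      rfl
    have f1 : Nat.fib (m + 3) = Nat.fib (m + 1) + Nat.fib (m + 2) := Nat.fib_add_two
    have f2 : Nat.fib (m + 4) = Nat.fib (m + 2) + Nat.fib (m + 3) := Nat.fib_add_two
    rw [e1, e2, e3]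
    omega

theorem base_pos (n : ℕ) : base n ≠ 0 := by
  induction n using Nat.strong_induction_on with
  | _ n ih =>
    by_cases hn : n < 18
    · interval_cases n <;> decide
    · obtain ⟨m, rfl⟩ : ∃ m, n = m + 18 := ⟨n - 18, by omega⟩
      have := ih (m + 17) (by omega)
      rw [base_add_two]
      omega

theorem base_fib (m : ℕ) : fibc 528 825 m = (base (m + 18), base (m + 19)) := by
  induction m with
  | zero => rw [base18, base19]; rfl
  | succ m ih =>
    show ((fibc 528 825 m).2, (fibc 528 825 m).1 + (fibc 528 825 m).2) = _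
    rw [ih]
    show (base (m + 19), base (m + 18) + base (m + 19)) = (base (m + 19), base (m + 2 + 18))
    rw [base_add_two (m + 2), add_comm (base (m + 18))]

theorem base_fib2 (m : ℕ) : fibc 231 297 (m + 2) = fibc 528 825 m := by
  induction m with
  | zero => rfl
  | succ m ih =>
    show ((fibc 231 297 (m + 2)).2, (fibc 231 297 (m + 2)).1 + (fibc 231 297 (m + 2)).2) = _
    rw [ih]; rfl

theorem sizeY (n : ℕ) : (if n ≤ 17 then szY n else (fibc 231 297 (n - 17)).2) = seq 297 n := by
  have hs : seq 297 = base := by
    unfold seq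
    exact Function.update_eq_self 17 base
  rw [hs]
  by_cases hn : n ≤ 17
  · rw [if_pos hn]
    interval_cases n <;> rfl
  · rw [if_neg hn]
    by_cases h18 : n = 18
    · subst h18; rw [base18]; rfl
    · obtain ⟨m, rfl⟩ : ∃ m, n = m + 19 := ⟨n - 19, by omega⟩
      rw [show m + 19 - 17 = m + 2 by omega, base_fib2, base_fib]

theorem sizeE (n : ℕ) : (if n ≤ 19 then szE n else (fibc 528 825 (n - 19)).2) = seq 299 n := by
  unfold seq
  by_cases hn : n ≤ 19
  · rw [if_pos hn]
    by_cases h17 : n ≤ 17
    · interval_cases n <;> rfl
    · rw [Function.update_of_ne (by omega)]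
      obtain rfl | rfl : n = 18 ∨ n = 19 := by omega
      · rw [base18]; rfl
      · rw [base19]; rfl
  · rw [if_neg hn, Function.update_of_ne (by omega)]
    obtain ⟨m, rfl⟩ : ∃ m, n = m + 19 := ⟨n - 19, by omega⟩
    rw [show m + 19 - 19 = m by omega, base_fib]

theorem seq_pos {c : ℕ} (hc : c ≠ 0) (n : ℕ) : seq c n ≠ 0 := by
  unfold seq
  by_cases hn : n = 17
  · subst hn; rw [Function.update_self]; exact hc
  · rw [Function.update_of_ne hn]; exact base_pos n

theorem mem297 : seq 297 ∈ rankFunctions 1 := by
  obtain ⟨P, i1, i2, i3, h1, h2⟩ := exY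
  refine ⟨P, i1, i2, i3, of_diff1 h1, fun n => ?_⟩
  apply encard_of_card (seq_pos (by norm_num) n)
  rw [h2 n, sizeY]

theorem mem299 : seq 299 ∈ rankFunctions 1 := by
  obtain ⟨P, i1, i2, i3, h1, h2⟩ := exE
  refine ⟨P, i1, i2, i3, of_diff1 h1, fun n => ?_⟩
  apply encard_of_card (seq_pos (by norm_num) n)
  rw [h2 n, sizeE]

/-- No `1`-differential poset has `p(n)` elements of rank `n` for `n ≤ 16` and `298` elements of
rank `17`. -/
theorem no_298 (P : Type) [PartialOrder P] [GradeMinOrder ℕ P] [LocallyFiniteOrder P]
    (hP : IsDifferentialPoset 1 P)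
    (h : ∀ n ≤ 16, {x : P | grade ℕ x = n}.encard = (base n : ℕ∞)) :
    {x : P | grade ℕ x = 17}.encard ≠ 298 := by
  intro h17
  have hc : ∀ n ≤ 16, Nat.card {x : P // grade ℕ x = n} = base n := fun n hn =>
    card_of_encard (h n hn)
  refine no298 (to_diff1 hP) ?_ (card_of_encard (m := 298) (by exact_mod_cast h17))
  exact
    { c1 := hc 1 (by norm_num)
      c2 := hc 2 (by norm_num)
      c3 := hc 3 (by norm_num)
      c4 := hc 4 (by norm_num)
      c5 := hc 5 (by norm_num)
      c6 := hc 6 (by norm_num)
      c7 := hc 7 (by norm_num)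
      c8 := hc 8 (by norm_num)
      c9 := hc 9 (by norm_num)
      c10 := hc 10 (by norm_num)
      c11 := hc 11 (by norm_num)
      c12 := hc 12 (by norm_num)
      c13 := hc 13 (by norm_num)
      c14 := hc 14 (by norm_num)
      c15 := hc 15 (by norm_num)
      c16 := hc 16 (by norm_num) }

/-- **The Interval Property fails for the set of rank functions of `1`-differential posets.**  The
first part gives the counterexample: of the three sequences, which differ only at the index `17`,
the two outer ones are rank functions of `1`-differential posets, the middle one is not (and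
already its entries up to index `17` do not occur). -/
theorem result :
    (seq 297 ∈ rankFunctions 1 ∧ seq 299 ∈ rankFunctions 1 ∧
      ∀ h ∈ rankFunctions 1, (∀ n ≤ 16, h n = base n) → h 17 ≠ 298) ∧
    ¬ IntervalProperty (rankFunctions 1) := by
  have hno : ∀ h ∈ rankFunctions 1, (∀ n ≤ 16, h n = base n) → h 17 ≠ 298 := by
    rintro h ⟨P, i1, i2, i3, hP, hn⟩ hb h17
    refine no_298 P hP (fun n hle => ?_) ?_
    · rw [hn n, hb n hle]
    · rw [hn 17, h17]; rfl
  refine ⟨⟨mem297, mem299, hno⟩, ?_⟩
  intro hI
  have h1 := hI (seq 297) mem297 (seq 299) mem299 17 2 (by norm_num) (by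
      intro j hj
      unfold seq
      rw [Function.update_of_ne hj, Function.update_of_ne hj])
    (by unfold seq; rw [Function.update_self, Function.update_self]) 1 (by norm_num)
  refine hno _ h1 (fun n hn => ?_) ?_
  · rw [Function.update_of_ne (by omega)]
    unfold seq
    rw [Function.update_of_ne (by omega)]
  · rw [Function.update_self]
    unfold seq
    rw [Function.update_self]

end Pool.Agent.Results.MP_936fee_co.IntervalPropertyFails
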